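import Pool.Agent.Helper63.XR.StB

/-! Module REC of project XR: recurrence. -/

set_option autoImplicit false

namespace Pool.Agent.Helper92.XR

open Pool.Agent.Helper63.XR
open Filter Topology

theorem hREC : StRec := by
  intro X _ _ h hd t
  set u : ℕ → X := fun M => (h ^ ((M : ℕ) : ℤ) : X ≃ₜ X) t with hu
  have hu1 : ∀ M, u (M + 1) = h (u M) := by
    intro M
    show (h ^ (((M + 1 : ℕ)) : ℤ) : X ≃ₜ X) t = h ((h ^ ((M : ℕ) : ℤ) : X ≃ₜ X) t)
    rw [Nat.cast_succ, add_comm, zpow_add, zpow_one]
    rfl
  have hinv : ∀ x, MapClusterPt x atTop u → MapClusterPt (h x) atTop u := by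
    intro x hx
    have h1 : MapClusterPt (h x) atTop (h ∘ u) := hx.continuousAt_comp h.continuous.continuousAt
    have h2 : h ∘ u = u ∘ (fun n => n + 1) := by
      funext M
      exact (hu1 M).symm
    rw [h2] at h1
    exact MapClusterPt.of_comp (tendsto_add_atTop_nat 1) h1
  have hinv' : ∀ x, MapClusterPt x atTop u → MapClusterPt (h.symm x) atTop u := by
    intro x hx
    have h1 : MapClusterPt x atTop (u ∘ fun n => n + 1) := by
      unfold MapClusterPt at hx ⊢
      rw [← Filter.map_map, Filter.map_add_atTop_eq_nat]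
      exact hx
    have h2 : MapClusterPt (h.symm x) atTop (h.symm ∘ (u ∘ fun n => n + 1)) :=
      h1.continuousAt_comp h.symm.continuous.continuousAt
    have h3 : h.symm ∘ (u ∘ fun n => n + 1) = u := by
      funext M
      show h.symm (u (M + 1)) = u M
      rw [hu1, Homeomorph.symm_apply_apply]
    rw [h3] at h2
    exact h2
  obtain ⟨x, hx⟩ := exists_clusterPt_of_compactSpace (map u atTop)
  have hx : MapClusterPt x atTop u := hx
  have hall : ∀ n : ℤ, MapClusterPt ((h ^ n : X ≃ₜ X) x) atTop u := by
    intro n
    induction n using Int.induction_on with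
    | zero => simpa using hx
    | succ i ih =>
      have := hinv _ ih
      rw [add_comm, zpow_add, zpow_one]
      exact this
    | pred i ih =>
      have := hinv' _ ih
      rw [sub_eq_neg_add, zpow_add, zpow_neg_one]
      exact this
  have hcl : IsClosed {y | MapClusterPt y atTop u} := isClosed_setOfPred_clusterPt
  have hdense : Dense {y | MapClusterPt y atTop u} := by
    refine (hd x).mono ?_
    rintro _ ⟨n, rfl⟩
    exact hall n
  have ht : MapClusterPt t atTop u := by
    have h5 : {y | MapClusterPt y atTop u} = Set.univ := hcl.closure_eq ▸ hdense.closure_eq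
    have h6 : t ∈ {y | MapClusterPt y atTop u} := by
      rw [h5]
      exact Set.mem_univ _
    exact h6
  show (atTop ⊓ comap u (𝓝 t)).NeBot
  rw [neBot_inf_comap_iff_map, inf_comm]
  exact ht

end Pool.Agent.Helper92.XR
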