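import Pool.Agent.Helper63.XR.StA

/-! Module RKT of project XR. -/

set_option autoImplicit false

namespace Pool.Agent.Helper92.XR

open Pool.Agent.Helper63.XR

theorem hRKT : StRkt := by
  intro n _ _ E hE
  have h1 : IsIdempotentElem (Matrix.toLin' E) := by
    show Matrix.toLin' E ∘ₗ Matrix.toLin' E = Matrix.toLin' E
    rw [← Matrix.toLin'_mul, hE]
  have h2 := LinearMap.isProj_range_iff_isIdempotentElem (Matrix.toLin' E) |>.2 h1
  have h3 := h2.trace
  have h4 : Module.finrank ℂ (LinearMap.range (Matrix.toLin' E)) = E.rank := by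
    rw [Matrix.rank, Matrix.toLin'_apply']
  rw [h4, Matrix.trace_toLin'_eq] at h3
  calc (E.rank : ℝ) = ‖((E.rank : ℕ) : ℂ)‖ := by simp
    _ = ‖E.trace‖ := by rw [h3]
    _ ≤ ∑ i, ‖E i i‖ := norm_sum_le _ _

end Pool.Agent.Helper92.XR
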